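import Pool.Agent.Q276.TwoEig

/-!
# A graph with two distinct eigenvalues whose minimal multiplicity bipartition exceeds its minimum
semidefinite rank

The graph has 22 vertices; `q(G) = 2`, `MB(G) = 11` and `mr₊(G) ≤ 10`.
-/

namespace Pool.Agent.Results.MP_558aee_co.StrictInequality

open Matrix Pool.Agent.Q276.TwoEig

/-- The entries of the matrix `250 A`, where `A` is an involution. -/
def table : List (List ℤ) :=
  [[0, 0, 100, -100, 0, 0, 0, 0, 100, 100, 0, 0, -45, 45, 0, 0, 0, 0, -45, -45, 96, -72],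
    [0, 0, 125, -125, 0, 0, 0, 0, -125, -125, 0, 0, 0, 0, 0, 0, 0, 0, 0, 0, 0, 0],
    [100, 125, 0, 0, 125, -125, 0, 0, 0, 0, 75, 0, 0, 0, 0, 0, 0, 0, 0, 0, 0, 0],
    [-100, -125, 0, 0, 125, -125, 0, 0, 0, 0, -75, 0, 0, 0, 0, 0, 0, 0, 0, 0, 0, 0],
    [0, 0, 125, 125, 0, 0, 125, -125, 0, 0, 0, 0, 0, 0, 0, 0, 0, 0, 0, 0, 0, 0],
    [0, 0, -125, -125, 0, 0, 125, -125, 0, 0, 0, 0, 0, 0, 0, 0, 0, 0, 0, 0, 0, 0],
    [0, 0, 0, 0, 125, 125, 0, 0, 125, -125, 0, 0, 0, 0, 0, 0, 0, 0, 0, 0, 0, 0],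
    [0, 0, 0, 0, -125, -125, 0, 0, 125, -125, 0, 0, 0, 0, 0, 0, 0, 0, 0, 0, 0, 0],
    [100, -125, 0, 0, 0, 0, 125, 125, 0, 0, 75, 0, 0, 0, 0, 0, 0, 0, 0, 0, 0, 0],
    [100, -125, 0, 0, 0, 0, -125, -125, 0, 0, 75, 0, 0, 0, 0, 0, 0, 0, 0, 0, 0, 0],
    [0, 0, 75, -75, 0, 0, 0, 0, 75, 75, 0, 0, 60, -60, 0, 0, 0, 0, 60, 60, -128, 96],
    [0, 0, 0, 0, 0, 0, 0, 0, 0, 0, 0, 0, 125, -125, 0, 0, 0, 0, -125, -125, 0, 0],
    [-45, 0, 0, 0, 0, 0, 0, 0, 0, 0, 60, 125, 0, 0, 125, -125, 0, 0, 0, 0, 60, 80],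
    [45, 0, 0, 0, 0, 0, 0, 0, 0, 0, -60, -125, 0, 0, 125, -125, 0, 0, 0, 0, -60, -80],
    [0, 0, 0, 0, 0, 0, 0, 0, 0, 0, 0, 0, 125, 125, 0, 0, 125, -125, 0, 0, 0, 0],
    [0, 0, 0, 0, 0, 0, 0, 0, 0, 0, 0, 0, -125, -125, 0, 0, 125, -125, 0, 0, 0, 0],
    [0, 0, 0, 0, 0, 0, 0, 0, 0, 0, 0, 0, 0, 0, 125, 125, 0, 0, 125, -125, 0, 0],
    [0, 0, 0, 0, 0, 0, 0, 0, 0, 0, 0, 0, 0, 0, -125, -125, 0, 0, 125, -125, 0, 0],
    [-45, 0, 0, 0, 0, 0, 0, 0, 0, 0, 60, -125, 0, 0, 0, 0, 125, 125, 0, 0, 60, 80],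
    [-45, 0, 0, 0, 0, 0, 0, 0, 0, 0, 60, -125, 0, 0, 0, 0, -125, -125, 0, 0, 60, 80],
    [96, 0, 0, 0, 0, 0, 0, 0, 0, 0, -128, 0, 60, -60, 0, 0, 0, 0, 60, 60, 144, 42],
    [-72, 0, 0, 0, 0, 0, 0, 0, 0, 0, 96, 0, 80, -80, 0, 0, 0, 0, 80, 80, 42, -144]]

/-- The integer matrix `250 A`. -/
def M (i j : Fin 22) : ℤ := (table.getD i.val []).getD j.val 0

/-- The coordinates of vectors representing the graph in dimension ten. -/
def vectors : List (List ℤ) :=
  [[1, 1, 1, -1, 0, 0, 0, 0, 0, 0, 1, 0, 0, 0, 0, 0, 0, 0, 0, 0, 0, 0],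
    [0, 0, 1, 1, 1, -1, 0, 0, 0, 0, 0, 0, 0, 0, 0, 0, 0, 0, 0, 0, 0, 0],
    [0, 0, 0, 0, 1, 1, 1, -1, 0, 0, 0, 0, 0, 0, 0, 0, 0, 0, 0, 0, 0, 0],
    [0, 0, 0, 0, 0, 0, 1, 1, 1, -1, 0, 0, 0, 0, 0, 0, 0, 0, 0, 0, 0, 0],
    [1, -1, 0, 0, 0, 0, 0, 0, 1, 1, 1, 0, 0, 0, 0, 0, 0, 0, 0, 0, 0, 0],
    [-1, 0, 0, 0, 0, 0, 0, 0, 0, 0, 1, 1, 1, -1, 0, 0, 0, 0, 0, 0, 1, 1],
    [0, 0, 0, 0, 0, 0, 0, 0, 0, 0, 0, 0, 1, 1, 1, -1, 0, 0, 0, 0, 0, 0],
    [0, 0, 0, 0, 0, 0, 0, 0, 0, 0, 0, 0, 0, 0, 1, 1, 1, -1, 0, 0, 0, 0],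
    [0, 0, 0, 0, 0, 0, 0, 0, 0, 0, 0, 0, 0, 0, 0, 0, 1, 1, 1, -1, 0, 0],
    [-1, 0, 0, 0, 0, 0, 0, 0, 0, 0, 1, -1, 0, 0, 0, 0, 0, 0, 1, 1, 1, 1]]

/-- The integer matrix whose columns are the vectors. -/
def C (i : Fin 10) (j : Fin 22) : ℤ := (vectors.getD i.val []).getD j.val 0

/-- The graph: the pattern of `M`. -/
def graph : SimpleGraph (Fin 22) where
  Adj i j := i ≠ j ∧ M i j ≠ 0
  symm := ⟨by decide +kernel⟩
  loopless := ⟨fun i h => h.1 rfl⟩

instance : DecidableRel graph.Adj := fun i j => inferInstanceAs (Decidable (i ≠ j ∧ M i j ≠ 0))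

theorem M_symm : ∀ i j, M i j = M j i := by decide +kernel

theorem M_sq : ∀ i j, ∑ k, M i k * M k j = if i = j then 62500 else 0 := by decide +kernel

theorem M_trace : ∑ k, M k k = 0 := by decide +kernel

theorem C_pattern : ∀ i j, i ≠ j → (∑ k, C k i * C k j ≠ 0 ↔ M i j ≠ 0) := by decide +kernel

/-! ## The involution and the semidefinite matrix -/

/-- The involution. -/
noncomputable def A : Matrix (Fin 22) (Fin 22) ℝ := fun i j => (M i j : ℝ) / 250

theorem A_graph : IsMatrixOf graph A := by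
  constructor
  · ext i j
    simp only [A, Matrix.transpose_apply, M_symm j i]
  · intro i j hij
    have h : A i j ≠ 0 ↔ M i j ≠ 0 := by
      simp [A]
    rw [h]
    exact ⟨fun h => ⟨hij, h⟩, fun h => h.2⟩

theorem A_sq : A * A = 1 := by
  ext i j
  have h : (∑ k, (M i k : ℝ) * (M k j : ℝ)) = if i = j then 62500 else 0 := by
    have := M_sq i j
    have h2 : ((∑ k, M i k * M k j : ℤ) : ℝ) = ((if i = j then 62500 else 0 : ℤ) : ℝ) := by
      rw [this]
    push_cast at h2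
    exact h2
  have h3 : ∀ k, A i k * A k j = ((M i k : ℝ) * (M k j : ℝ)) * (1 / 62500) := by
    intro k
    simp only [A]
    ring
  rw [Matrix.mul_apply, Finset.sum_congr rfl (fun k _ => h3 k), ← Finset.sum_mul, h,
    Matrix.one_apply]
  split_ifs <;> norm_num

theorem A_trace : A.trace = 0 := by
  have h : ((∑ k, M k k : ℤ) : ℝ) = 0 := by rw [M_trace]; norm_num
  push_cast at h
  rw [Matrix.trace]
  simp only [Matrix.diag_apply, A]
  rw [← Finset.sum_div, h, zero_div]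

/-- The matrix of the vectors. -/
noncomputable def R : Matrix (Fin 10) (Fin 22) ℝ := fun i j => (C i j : ℝ)

theorem R_graph : IsMatrixOf graph (Rᵀ * R) := by
  constructor
  · rw [Matrix.IsSymm, Matrix.transpose_mul, Matrix.transpose_transpose]
  · intro i j hij
    have h : (Rᵀ * R) i j = ((∑ k, C k i * C k j : ℤ) : ℝ) := by
      rw [Matrix.mul_apply]
      push_cast
      rfl
    rw [h, Int.cast_ne_zero, C_pattern i j hij]
    exact ⟨fun h => ⟨hij, h⟩, fun h => h.2⟩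

theorem mrPlus_le : mrPlus graph ≤ 10 := by
  have h1 : (Rᵀ * R).rank ≤ 10 := by
    refine (Matrix.rank_mul_le_right _ _).trans ?_
    exact (Matrix.rank_le_height _)
  refine (Nat.sInf_le ?_).trans h1
  refine ⟨Rᵀ * R, R_graph, ?_, rfl⟩
  have := Matrix.posSemidef_conjTranspose_mul_self R
  rwa [Matrix.conjTranspose_eq_transpose_of_trivial] at this

/-! ## The multiplicities -/

/-- All diagonal entries of an involution with this graph vanish, except the last two. -/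
theorem trace_eq (B : Matrix (Fin 22) (Fin 22) ℝ) (hG : IsMatrixOf graph B) (hB : B * B = 1) :
    B.trace = B 20 20 + B 21 21 := by
  have r : ∀ i j, (graph.Adj i j ∧ ∀ k, ¬ (graph.Adj i k ∧ graph.Adj k j)) →
      B i i + B j j = 0 := fun i j h => rule graph B hG hB i j h.1 h.2
  have h0 : B 0 0 = 0 := by
    have a1 := r 0 2 (by decide +kernel)
    have a2 := r 2 4 (by decide +kernel)
    have a3 := r 4 6 (by decide +kernel)
    have a4 := r 6 8 (by decide +kernel)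
    have a5 := r 8 0 (by decide +kernel)
    linarith
  have h2 : B 2 2 = 0 := by have := r 0 2 (by decide +kernel); linarith
  have h3 : B 3 3 = 0 := by have := r 0 3 (by decide +kernel); linarith
  have h8 : B 8 8 = 0 := by have := r 0 8 (by decide +kernel); linarith
  have h9 : B 9 9 = 0 := by have := r 0 9 (by decide +kernel); linarith
  have h1 : B 1 1 = 0 := by have := r 1 2 (by decide +kernel); linarith
  have h4 : B 4 4 = 0 := by have := r 2 4 (by decide +kernel); linarith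
  have h5 : B 5 5 = 0 := by have := r 2 5 (by decide +kernel); linarith
  have h6 : B 6 6 = 0 := by have := r 6 8 (by decide +kernel); linarith
  have h7 : B 7 7 = 0 := by have := r 7 8 (by decide +kernel); linarith
  have h10 : B 10 10 = 0 := by have := r 2 10 (by decide +kernel); linarith
  have h11 : B 11 11 = 0 := by
    have a1 := r 11 12 (by decide +kernel)
    have a2 := r 12 14 (by decide +kernel)
    have a3 := r 14 16 (by decide +kernel)
    have a4 := r 16 18 (by decide +kernel)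
    have a5 := r 11 18 (by decide +kernel)
    linarith
  have h12 : B 12 12 = 0 := by have := r 11 12 (by decide +kernel); linarith
  have h13 : B 13 13 = 0 := by have := r 11 13 (by decide +kernel); linarith
  have h18 : B 18 18 = 0 := by have := r 11 18 (by decide +kernel); linarith
  have h19 : B 19 19 = 0 := by have := r 11 19 (by decide +kernel); linarith
  have h14 : B 14 14 = 0 := by have := r 12 14 (by decide +kernel); linarith
  have h15 : B 15 15 = 0 := by have := r 12 15 (by decide +kernel); linarith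
  have h16 : B 16 16 = 0 := by have := r 16 18 (by decide +kernel); linarith
  have h17 : B 17 17 = 0 := by have := r 17 18 (by decide +kernel); linarith
  rw [Matrix.trace]
  simp only [Matrix.diag_apply]
  simp only [Fin.sum_univ_succ, Fin.sum_univ_zero]
  simp only [Fin.succ_zero_eq_one, Fin.reduceSucc, h0, h1, h2, h3, h4, h5, h6, h7, h8, h9, h10,
    h11, h12, h13, h14, h15, h16, h17, h18, h19, zero_add, add_zero]

theorem achieves_iff (k : ℕ) (hk : k ≤ 11) (h : Achieves graph k) : k = 11 := by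
  obtain ⟨B, hG, hB, htr⟩ := exists_involution graph k (by simp; omega) h
  rw [trace_eq B hG hB] at htr
  have h1 := diag_lt graph B hG hB 20 21 (by decide +kernel)
  have h2 := diag_lt graph B hG hB 21 20 (by decide +kernel)
  rw [abs_lt] at h1 h2
  simp only [Fintype.card_fin, Nat.cast_ofNat] at htr
  have h3 : (10 : ℝ) < k := by linarith
  have h4 : 10 < k := by exact_mod_cast h3
  omega

theorem achieves : Achieves graph 11 ∧ numEig A = 2 :=
  achieves_of graph A A_graph A_sq 11 (by norm_num) (by simp) (by rw [A_trace]; norm_num)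

theorem q_eq : q graph = 2 := by
  apply le_antisymm
  · exact Nat.sInf_le ⟨A, A_graph, achieves.2⟩
  · refine le_csInf ⟨_, A, A_graph, rfl⟩ ?_
    rintro m ⟨B, hB, rfl⟩
    exact two_le_numEig graph B hB 20 21 (by decide +kernel)

theorem MB_eq : MB graph = 11 := by
  have hmem : 11 ∈ {k | 1 ≤ k ∧ k ≤ Fintype.card (Fin 22) / 2 ∧ Achieves graph k} :=
    ⟨by norm_num, by simp, achieves.1⟩
  apply le_antisymm (Nat.sInf_le hmem)
  refine le_csInf ⟨_, hmem⟩ ?_
  rintro k ⟨-, hk, h⟩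
  have hk' : k ≤ 11 := by simpa using hk
  rw [achieves_iff k hk' h]

/-- **The answer to the question is positive.** There is a graph `G` (with 22 vertices) with
`q(G) = 2` and `MB(G) > mr₊(G)`. -/
theorem result : ∃ (n : ℕ) (G : SimpleGraph (Fin n)), q G = 2 ∧ mrPlus G < MB G :=
  ⟨22, graph, q_eq, lt_of_le_of_lt mrPlus_le (by rw [MB_eq]; norm_num)⟩

end Pool.Agent.Results.MP_558aee_co.StrictInequality
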